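import Mathlib

/-! The Menger game and the partial open neighborhood assignment game. -/

namespace Pool.Agent.X69.Ponag

/-- `U` is an open cover of the space `X`. -/
def IsCover (X : Type) [TopologicalSpace X] (U : Set (Set X)) : Prop :=
  (∀ W ∈ U, IsOpen W) ∧ ⋃₀ U = Set.univ

/-- `X` is a Menger space. -/
def Menger (X : Type) [TopologicalSpace X] : Prop :=
  ∀ U : ℕ → Set (Set X), (∀ n, IsCover X (U n)) →
    ∃ F : ℕ → Set (Set X), (∀ n, F n ⊆ U n ∧ (F n).Finite) ∧ ⋃ n, ⋃₀ F n = Set.univ

/-- The finite sequence `(a 0, ..., a n)`. -/
def upTo {α : Type} (a : ℕ → α) (n : ℕ) : List α := (List.range (n + 1)).map a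

/-- Bob has a winning strategy in the Menger game on `X`: a function `s` of the finite sequence of
Alice's moves such that, as long as Alice has played open covers, Bob's answer is a finite subset of
her last cover, and along each infinite play his answers together cover `X`. -/
def BobWinsMenger (X : Type) [TopologicalSpace X] : Prop :=
  ∃ s : List (Set (Set X)) → Set (Set X), ∀ U : ℕ → Set (Set X),
    (∀ n, (∀ k ≤ n, IsCover X (U k)) → s (upTo U n) ⊆ U n ∧ (s (upTo U n)).Finite) ∧
    ((∀ n, IsCover X (U n)) → ⋃ n, ⋃₀ s (upTo U n) = Set.univ)

/-- A family of sets `V x` indexed by the points `x` of a set `dom`. -/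
structure Assignment (X : Type) where
  /-- the index set -/
  dom : Set X
  /-- the members of the family -/
  nbhd : dom → Set X

/-- The family is a partial open neighborhood assignment: each `V x` is open and contains `x`. -/
def Assignment.IsPONA {X : Type} [TopologicalSpace X] (p : Assignment X) : Prop :=
  ∀ x : p.dom, IsOpen (p.nbhd x) ∧ (x : X) ∈ p.nbhd x

/-- The union of the members `V x` with `x ∈ D`. -/
def Assignment.over {X : Type} (p : Assignment X) (D : Set X) : Set X :=
  ⋃ x : p.dom, ⋃ _ : (x : X) ∈ D, p.nbhd x

/-- The set covered by Bob's answers before round `n`, when Alice plays `p` and Bob follows `s`. -/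
def covered {X : Type} (s : List (Assignment X) → Set X) (p : ℕ → Assignment X) (n : ℕ) : Set X :=
  ⋃ k : ℕ, ⋃ _ : k < n, (p k).over (s (upTo p k))

/-- Alice's move in round `n` is legal: a partial open neighborhood assignment, indexed by points
not yet covered, whose members cover all points not yet covered. -/
def AliceLegal {X : Type} [TopologicalSpace X] (s : List (Assignment X) → Set X)
    (p : ℕ → Assignment X) (n : ℕ) : Prop :=
  (p n).IsPONA ∧ (p n).dom ⊆ (covered s p n)ᶜ ∧ (covered s p n)ᶜ ⊆ (p n).over Set.univ

/-- Bob has a winning strategy in the partial open neighborhood assignment game on `X`: a function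
`s` of the finite sequence of Alice's moves such that, as long as Alice has moved legally, Bob's
answer is a subset of the index set of her last assignment that is closed and discrete in `X`, and
along each infinite play the members he has selected cover `X`. -/
def BobWinsPONAG (X : Type) [TopologicalSpace X] : Prop :=
  ∃ s : List (Assignment X) → Set X, ∀ p : ℕ → Assignment X,
    (∀ n, (∀ k ≤ n, AliceLegal s p k) →
      s (upTo p n) ⊆ (p n).dom ∧ IsClosed (s (upTo p n)) ∧ IsDiscrete (s (upTo p n))) ∧
    ((∀ n, AliceLegal s p n) → ⋃ n, (p n).over (s (upTo p n)) = Set.univ)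

end Pool.Agent.X69.Ponag
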