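import Mathlib
import Pool.Agent.X69.Ponag.Defs

/-! Making all countable sets closed and discrete. -/

namespace Pool.Agent.X69.Ponag

open TopologicalSpace

/-- A copy of `X`, to carry the finer topology. -/
structure CC (X : Type) where
  /-- the underlying point -/
  pt : X

/-- the projection -/
def CC.equiv (X : Type) : CC X ≃ X := ⟨CC.pt, CC.mk, fun _ => rfl, fun _ => rfl⟩

/-- `W` is open iff every `x ∈ W` has an open neighbourhood `U` in the old topology with `U \ W`
countable. -/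
instance ccTop (X : Type) [TopologicalSpace X] : TopologicalSpace (CC X) where
  IsOpen W := ∀ x ∈ W, ∃ U : Set X, IsOpen U ∧ x.pt ∈ U ∧ ((CC.pt ⁻¹' U) \ W).Countable
  isOpen_univ := fun _ _ => ⟨Set.univ, isOpen_univ, Set.mem_univ _, by simp⟩
  isOpen_inter := by
    rintro W1 W2 h1 h2 x ⟨hx1, hx2⟩
    obtain ⟨U1, a1, b1, c1⟩ := h1 x hx1
    obtain ⟨U2, a2, b2, c2⟩ := h2 x hx2
    refine ⟨U1 ∩ U2, a1.inter a2, ⟨b1, b2⟩, (c1.union c2).mono ?_⟩
    rintro y ⟨⟨hy1, hy2⟩, hy3⟩
    by_cases hy : y ∈ W1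
    · exact Or.inr ⟨hy2, fun h => hy3 ⟨hy, h⟩⟩
    · exact Or.inl ⟨hy1, hy⟩
  isOpen_sUnion := by
    rintro S hS x ⟨W, hW, hxW⟩
    obtain ⟨U, a, b, c⟩ := hS W hW x hxW
    refine ⟨U, a, b, c.mono ?_⟩
    rintro y ⟨hy1, hy2⟩
    exact ⟨hy1, fun h => hy2 ⟨W, hW, h⟩⟩

variable {X : Type} [TopologicalSpace X]

theorem cc_isOpen_iff (W : Set (CC X)) : IsOpen W ↔
    ∀ x ∈ W, ∃ U : Set X, IsOpen U ∧ x.pt ∈ U ∧ ((CC.pt ⁻¹' U) \ W).Countable := Iff.rfl

theorem cc_continuous : Continuous (CC.pt : CC X → X) := by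
  rw [continuous_def]
  intro U hU x hx
  exact ⟨U, hU, hx, by simp⟩

theorem cc_isClosed_of_countable (C : Set (CC X)) (hC : C.Countable) : IsClosed C := by
  rw [← isOpen_compl_iff]
  intro x _
  refine ⟨Set.univ, isOpen_univ, Set.mem_univ _, hC.mono ?_⟩
  rintro y ⟨-, hy⟩
  simpa using hy

theorem cc_isDiscrete_of_countable (C : Set (CC X)) (hC : C.Countable) : IsDiscrete C := by
  rw [isDiscrete_iff_discreteTopology, discreteTopology_iff_forall_isOpen]
  intro S
  have h1 : IsClosed (Subtype.val '' Sᶜ : Set (CC X)) :=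
    cc_isClosed_of_countable _ (hC.mono (by rintro _ ⟨x, _, rfl⟩; exact x.2))
  have h2 : IsClosed (Subtype.val ⁻¹' (Subtype.val '' Sᶜ) : Set C) :=
    h1.preimage continuous_subtype_val
  rw [Set.preimage_image_eq _ Subtype.val_injective] at h2
  simpa using h2.isOpen_compl

instance [T2Space X] : T2Space (CC X) := by
  refine ⟨fun x y hxy => ?_⟩
  have h : x.pt ≠ y.pt := fun h => hxy ((CC.equiv X).injective h)
  obtain ⟨U, V, hU, hV, hx, hy, hd⟩ := t2_separation h
  exact ⟨CC.pt ⁻¹' U, CC.pt ⁻¹' V, hU.preimage cc_continuous, hV.preimage cc_continuous, hx, hy,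
    hd.preimage _⟩

/-- Lindelof property: countable subfamily -/
theorem cc_lindelof [SecondCountableTopology X] (Y : Set (CC X)) (V : CC X → Set (CC X))
    (hV : ∀ x ∈ Y, IsOpen (V x)) (hcov : ∀ x, ∃ y ∈ Y, x ∈ V y) :
    ∃ D : Set (CC X), D.Countable ∧ D ⊆ Y ∧ ∀ x, ∃ y ∈ D, x ∈ V y := by
  classical
  choose f hfY hf using hcov
  -- for every point a basic open set
  have h1 : ∀ x : CC X, ∃ B ∈ countableBasis X, x.pt ∈ B ∧
      ((CC.pt ⁻¹' B) \ V (f x)).Countable := by
    intro x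
    obtain ⟨U, hU, hxU, hc⟩ := (cc_isOpen_iff _).mp (hV (f x) (hfY x)) x (hf x)
    obtain ⟨B, hB, hxB, hBU⟩ := (isBasis_countableBasis X).exists_subset_of_mem_open hxU hU
    exact ⟨B, hB, hxB, hc.mono (Set.sdiff_subset_sdiff_left (Set.preimage_mono hBU))⟩
  choose B hB hxB hBc using h1
  -- the basic sets used
  let S : Set (Set X) := Set.range B
  have hS : S.Countable := (countable_countableBasis X).mono (by rintro _ ⟨x, rfl⟩; exact hB x)
  have h2 : ∀ b : S, ∃ x : CC X, B x = b := fun b => b.2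
  choose g hg using h2
  have hScount : Countable S := hS.to_subtype
  let C : Set (CC X) := ⋃ b : S, ((CC.pt ⁻¹' (b : Set X)) \ V (f (g b)))
  have hC : C.Countable := by
    apply Set.countable_iUnion
    intro b
    have := hBc (g b)
    rw [hg] at this
    exact this
  refine ⟨Set.range (fun b : S => f (g b)) ∪ f '' C, ?_, ?_, ?_⟩
  · exact (Set.countable_range _).union (hC.image f)
  · rintro _ (⟨b, rfl⟩ | ⟨x, _, rfl⟩)
    · exact hfY _
    · exact hfY _
  · intro x
    by_cases hx : x ∈ C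
    · exact ⟨f x, Or.inr ⟨x, hx, rfl⟩, hf x⟩
    · refine ⟨f (g ⟨B x, x, rfl⟩), Or.inl ⟨_, rfl⟩, ?_⟩
      by_contra h
      apply hx
      exact Set.mem_iUnion.mpr ⟨⟨B x, x, rfl⟩, hxB x, h⟩

/-- Bob wins PONAG in the first round. -/
theorem cc_bobWinsPONAG [SecondCountableTopology X] : BobWinsPONAG (CC X) := by
  classical
  -- for each assignment that covers, a countable subset of the domain which covers
  have h1 : ∀ p : Assignment (CC X), ∃ D : Set (CC X), D.Countable ∧ D ⊆ p.dom ∧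
      (p.IsPONA → p.over Set.univ = Set.univ → p.over D = Set.univ) := by
    intro p
    by_cases hp : p.IsPONA ∧ p.over Set.univ = Set.univ
    · let V : CC X → Set (CC X) := fun x => if h : x ∈ p.dom then p.nbhd ⟨x, h⟩ else ∅
      have hVe : ∀ x (h : x ∈ p.dom), V x = p.nbhd ⟨x, h⟩ := fun x h => by simp [V, h]
      obtain ⟨D, hD1, hD2, hD3⟩ := cc_lindelof p.dom V
        (fun x hx => by rw [hVe x hx]; exact (hp.1 ⟨x, hx⟩).1)
        (fun x => by
          have hx : x ∈ p.over Set.univ := by rw [hp.2]; trivial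
          obtain ⟨y, hy⟩ := Set.mem_iUnion.mp hx
          obtain ⟨-, hy⟩ := Set.mem_iUnion.mp hy
          exact ⟨y.1, y.2, by rw [hVe y.1 y.2]; exact hy⟩)
      refine ⟨D, hD1, hD2, fun _ _ => ?_⟩
      rw [Set.eq_univ_iff_forall]
      intro x
      obtain ⟨y, hy1, hy2⟩ := hD3 x
      rw [hVe y (hD2 hy1)] at hy2
      exact Set.mem_iUnion.mpr ⟨⟨y, hD2 hy1⟩, Set.mem_iUnion.mpr ⟨hy1, hy2⟩⟩
    · exact ⟨∅, Set.countable_empty, Set.empty_subset _, fun a b => absurd ⟨a, b⟩ hp⟩
  choose D hD1 hD2 hD3 using h1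
  let s : List (Assignment (CC X)) → Set (CC X) := fun l =>
    match l with
    | [] => ∅
    | [p] => D p
    | _ => ∅
  have hs0 : ∀ p : ℕ → Assignment (CC X), s (upTo p 0) = D (p 0) := fun p => rfl
  have hs1 : ∀ (p : ℕ → Assignment (CC X)) (n : ℕ), s (upTo p (n + 1)) = ∅ := by
    intro p n
    have : upTo p (n + 1) = p 0 :: p 1 :: ((List.range n).map (fun i => p (i + 2))) := by
      unfold upTo
      rw [List.range_succ_eq_map, List.map_cons, List.range_succ_eq_map, List.map_cons,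
        List.map_cons, List.map_map, List.map_map]
      rfl
    rw [this]
  refine ⟨s, fun p => ⟨fun n _ => ?_, fun hleg => ?_⟩⟩
  · cases n with
    | zero =>
      rw [hs0]
      exact ⟨hD2 _, cc_isClosed_of_countable _ (hD1 _), cc_isDiscrete_of_countable _ (hD1 _)⟩
    | succ n =>
      rw [hs1]
      exact ⟨Set.empty_subset _, isClosed_empty, cc_isDiscrete_of_countable _ Set.countable_empty⟩
  · have h0 := hleg 0
    have hcov : covered s p 0 = ∅ := by simp [covered]
    obtain ⟨h01, -, h03⟩ := h0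
    rw [hcov, Set.compl_empty] at h03
    have h4 := hD3 (p 0) h01 (Set.univ_subset_iff.mp h03)
    rw [Set.eq_univ_iff_forall] at h4 ⊢
    intro x
    exact Set.mem_iUnion.mpr ⟨0, by rw [hs0]; exact h4 x⟩

/-- The finer space is Menger if the old one is. -/
theorem cc_menger (hM : Menger X) : Menger (CC X) := by
  classical
  intro U hU
  let V : ℕ → Set (Set X) := fun n => {G | IsOpen G ∧ ∃ W ∈ U n, ((CC.pt ⁻¹' G) \ W).Countable}
  have hV : ∀ n, IsCover X (V n) := by
    intro n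
    refine ⟨fun G hG => hG.1, ?_⟩
    rw [Set.eq_univ_iff_forall]
    intro x
    have hx : CC.mk x ∈ ⋃₀ U n := by rw [(hU n).2]; trivial
    obtain ⟨W, hW, hxW⟩ := hx
    obtain ⟨G, h1, h2, h3⟩ := (cc_isOpen_iff W).mp ((hU n).1 W hW) _ hxW
    exact ⟨G, ⟨h1, W, hW, h3⟩, h2⟩
  obtain ⟨F, hF1, hF2⟩ := hM V hV
  have h1 : ∀ n, ∀ G : F n, ∃ W ∈ U n, ((CC.pt ⁻¹' (G : Set X)) \ W).Countable :=
    fun n G => ((hF1 n).1 G.2).2
  choose W hW1 hW2 using h1
  let C : Set (CC X) := ⋃ n, ⋃ G : F n, ((CC.pt ⁻¹' (G : Set X)) \ W n G)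
  have hC : C.Countable := by
    apply Set.countable_iUnion
    intro n
    have : Countable (F n) := (hF1 n).2.countable.to_subtype
    exact Set.countable_iUnion (fun G => hW2 n G)
  -- the second part
  have h2 : ∃ e : ℕ → Option (CC X), ∀ c ∈ C, ∃ n, e n = some c := by
    rcases C.eq_empty_or_nonempty with h | h
    · exact ⟨fun _ => none, fun c hc => by rw [h] at hc; exact hc.elim⟩
    · obtain ⟨e, he⟩ := hC.exists_eq_range h
      refine ⟨fun n => some (e n), fun c hc => ?_⟩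
      rw [he] at hc
      obtain ⟨n, hn⟩ := hc
      exact ⟨n, congrArg some hn⟩
  obtain ⟨e, he⟩ := h2
  have h3 : ∀ n, ∀ x : CC X, ∃ W ∈ U n, x ∈ W := by
    intro n x
    have : x ∈ ⋃₀ U n := by rw [(hU n).2]; trivial
    exact this
  choose w hw1 hw2 using h3
  refine ⟨fun n => Set.range (W n) ∪ {S | ∃ c, e n = some c ∧ S = w n c}, ?_, ?_⟩
  · intro n
    constructor
    · rintro _ (⟨G, rfl⟩ | ⟨c, _, rfl⟩)
      · exact hW1 n G
      · exact hw1 n c
    · have : Finite (F n) := (hF1 n).2.to_subtype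
      apply Set.Finite.union (Set.finite_range _)
      cases hen : e n with
      | none =>
        apply Set.Finite.subset Set.finite_empty
        rintro S ⟨c, hc, _⟩
        exact absurd hc (by simp)
      | some c =>
        apply Set.Finite.subset (Set.finite_singleton (w n c))
        rintro S ⟨c', hc', rfl⟩
        rw [Option.some.inj hc']
        rfl
  · rw [Set.eq_univ_iff_forall]
    intro x
    by_cases hx : x ∈ C
    · obtain ⟨n, hn⟩ := he x hx
      exact Set.mem_iUnion.mpr ⟨n, w n x, Or.inr ⟨x, hn, rfl⟩, hw2 n x⟩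
    · have hx2 : x.pt ∈ ⋃ n, ⋃₀ F n := by rw [hF2]; trivial
      obtain ⟨n, G, hG, hxG⟩ := Set.mem_iUnion.mp hx2
      refine Set.mem_iUnion.mpr ⟨n, W n ⟨G, hG⟩, Or.inl ⟨_, rfl⟩, ?_⟩
      by_contra h
      exact hx (Set.mem_iUnion.mpr ⟨n, Set.mem_iUnion.mpr ⟨⟨G, hG⟩, hxG, h⟩⟩)

/-- A winning strategy on the finer space gives one on the old space. -/
theorem cc_bobWins (h : BobWinsMenger (CC X)) : BobWinsMenger X := by
  classical
  obtain ⟨s, hs⟩ := h
  -- transport along the bijection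
  let φ : Set (Set X) → Set (Set (CC X)) := fun U => (fun W => CC.pt ⁻¹' W) '' U
  let ψ : Set (Set (CC X)) → Set (Set X) := fun U => (fun W => CC.mk ⁻¹' W) '' U
  have hψφ : ∀ U, ψ (φ U) = U := by
    intro U
    simp only [φ, ψ, Set.image_image]
    exact Set.image_id U
  have hcov : ∀ U, IsCover X U → IsCover (CC X) (φ U) := by
    rintro U ⟨h1, h2⟩
    constructor
    · rintro _ ⟨W, hW, rfl⟩
      exact (h1 W hW).preimage cc_continuous
    · rw [Set.eq_univ_iff_forall]
      intro x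
      have : x.pt ∈ ⋃₀ U := by rw [h2]; trivial
      obtain ⟨W, hW, hx⟩ := this
      exact ⟨_, ⟨W, hW, rfl⟩, hx⟩
  have hup : ∀ (U : ℕ → Set (Set X)) n, (upTo U n).map φ = upTo (fun k => φ (U k)) n := by
    intro U n
    simp [upTo, List.map_map, Function.comp_def]
  refine ⟨fun l => ψ (s (l.map φ)), fun U => ⟨fun n hn => ?_, fun hU => ?_⟩⟩
  · obtain ⟨h1, -⟩ := hs (fun k => φ (U k))
    obtain ⟨h2, h3⟩ := h1 n (fun k hk => hcov _ (hn k hk))
    show ψ (s ((upTo U n).map φ)) ⊆ U n ∧ (ψ (s ((upTo U n).map φ))).Finite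
    rw [hup]
    constructor
    · intro W hW
      have : W ∈ ψ (φ (U n)) := Set.image_mono h2 hW
      rwa [hψφ] at this
    · exact h3.image _
  · obtain ⟨-, h1⟩ := hs (fun k => φ (U k))
    have h2 := h1 (fun n => hcov _ (hU n))
    rw [Set.eq_univ_iff_forall] at h2 ⊢
    intro x
    obtain ⟨n, W, hW, hx⟩ := Set.mem_iUnion.mp (h2 (CC.mk x))
    refine Set.mem_iUnion.mpr ⟨n, CC.mk ⁻¹' W, ?_, hx⟩
    simp only [hup]
    exact ⟨W, hW, rfl⟩

end Pool.Agent.X69.Ponag
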