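import Mathlib
import Pool.Agent.X69.Ponag.Defs

/-! A Menger set of reals which is uncountable and has only countable compact subsets (in ZFC). -/

namespace Pool.Agent.X69.Ponag

open TopologicalSpace Cardinal

/-- `F` is a dominating family. -/
def Dominating (F : Set (ℕ → ℕ)) : Prop :=
  ∀ h : ℕ → ℕ, ∃ f ∈ F, ∃ N, ∀ n, N ≤ n → h n ≤ f n

/-- a finite family is not dominating -/
theorem not_dominating_finite (F : Set (ℕ → ℕ)) (hF : F.Finite) : ¬ Dominating F := by
  intro h
  obtain ⟨f, hf, N, hN⟩ := h (fun n => (∑ f ∈ hF.toFinset, f n) + 1)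
  have h1 := hN N le_rfl
  have h2 : f N ≤ ∑ f ∈ hF.toFinset, f N :=
    Finset.single_le_sum (f := fun f : ℕ → ℕ => f N) (fun _ _ => Nat.zero_le _)
      (by simpa using hF.mem_toFinset.mpr hf)
  omega

/-- count of true entries below `m` -/
def cnt (z : ℕ → Bool) (m : ℕ) : ℕ := ((Finset.range m).filter (fun j => z j = true)).card

theorem cnt_mono (z : ℕ → Bool) {m m' : ℕ} (h : m ≤ m') : cnt z m ≤ cnt z m' :=
  Finset.card_le_card (Finset.filter_subset_filter _ (Finset.range_mono h))

/-- the set of zeros-eventually sequences -/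
def QQ : Set (ℕ → Bool) := {z | ∃ N, ∀ n, N ≤ n → z n = false}

theorem QQ_countable : QQ.Countable := by
  have : QQ = ⋃ N : ℕ, {z : ℕ → Bool | ∀ n, N ≤ n → z n = false} := by
    ext z; simp [QQ]
  rw [this]
  apply Set.countable_iUnion
  intro N
  have hfin : ({z : ℕ → Bool | ∀ n, N ≤ n → z n = false}).Finite := by
    apply Set.Finite.of_injOn (f := fun z : ℕ → Bool => fun i : Fin N => z i)
      (t := (Set.univ : Set (Fin N → Bool)))
    · intro _ _; trivial
    · intro z hz z' hz' h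
      funext n
      by_cases hn : n < N
      · exact congrFun h ⟨n, hn⟩
      · rw [hz n (by omega), hz' n (by omega)]
    · exact Set.finite_univ
  exact hfin.countable

theorem cnt_unbounded (z : ℕ → Bool) (hz : z ∉ QQ) (n : ℕ) : ∃ m, n < cnt z m := by
  induction n with
  | zero =>
    simp only [QQ, Set.mem_ofPred_eq, not_exists, not_forall] at hz
    obtain ⟨j, hj, hz⟩ := hz 0
    refine ⟨j + 1, ?_⟩
    apply Finset.card_pos.mpr
    exact ⟨j, by simp; simpa using hz⟩
  | succ n ih =>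
    obtain ⟨m, hm⟩ := ih
    simp only [QQ, Set.mem_ofPred_eq, not_exists, not_forall] at hz
    obtain ⟨j, hj, hz⟩ := hz m
    refine ⟨j + 1, ?_⟩
    have hsub : insert j ((Finset.range m).filter (fun j => z j = true)) ⊆
        (Finset.range (j + 1)).filter (fun j => z j = true) := by
      intro i hi
      rw [Finset.mem_insert] at hi
      rcases hi with rfl | hi
      · simp; simpa using hz
      · rw [Finset.mem_filter, Finset.mem_range] at hi ⊢
        exact ⟨by omega, hi.2⟩
    have h1 := Finset.card_le_card hsub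
    rw [Finset.card_insert_of_notMem (by simp; intro h; omega)] at h1
    unfold cnt at hm ⊢
    omega

theorem isOpen_cnt (n m : ℕ) : IsOpen {z : ℕ → Bool | n < cnt z m} := by
  have : Continuous (fun z : ℕ → Bool => cnt z m) := by
    unfold cnt
    simp_rw [Finset.card_filter]
    apply continuous_finsetSum
    intro i _
    exact (continuous_of_discreteTopology (f := fun b : Bool => if b = true then 1 else 0)).comp
      (continuous_apply i)
  exact (isOpen_discrete {k : ℕ | n < k}).preimage this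

/-- compact sets missing `QQ` are bounded -/
theorem compact_bounded (K : Set (ℕ → Bool)) (hK : IsCompact K) (hQ : Disjoint K QQ) :
    ∃ b : ℕ → ℕ, ∀ z ∈ K, ∀ n, n < cnt z (b n) := by
  have h : ∀ n, ∃ m, ∀ z ∈ K, n < cnt z m := by
    intro n
    obtain ⟨t, ht⟩ := hK.elim_finite_subcover (fun m : ℕ => {z : ℕ → Bool | n < cnt z m})
      (fun m => isOpen_cnt n m) (fun z hz => by
        obtain ⟨m, hm⟩ := cnt_unbounded z (Set.disjoint_left.mp hQ hz) n
        exact Set.mem_iUnion.mpr ⟨m, hm⟩)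
    refine ⟨t.sup id, fun z hz => ?_⟩
    obtain ⟨m, hm⟩ := Set.mem_iUnion.mp (ht hz)
    obtain ⟨hmt, hm⟩ := Set.mem_iUnion.mp hm
    exact lt_of_lt_of_le hm (cnt_mono z (Finset.le_sup (f := id) hmt))
  choose b hb using h
  exact ⟨b, fun z hz n => hb n z hz⟩

open Classical in
/-- the characteristic sequence of the range of `g` -/
noncomputable def rg (g : ℕ → ℕ) : ℕ → Bool := fun m => decide (∃ n, g n = m)

theorem cnt_rg (g : ℕ → ℕ) (hg : StrictMono g) (n m : ℕ) (h : n < cnt (rg g) m) : g n < m := by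
  by_contra hcon
  push Not at hcon
  have hsub : (Finset.range m).filter (fun j => rg g j = true) ⊆ (Finset.range n).image g := by
    intro j hj
    rw [Finset.mem_filter, Finset.mem_range] at hj
    have h2 : ∃ i, g i = j := by simpa [rg] using hj.2
    obtain ⟨i, hi⟩ := h2
    rw [Finset.mem_image]
    refine ⟨i, ?_, hi⟩
    rw [Finset.mem_range]
    by_contra hni
    have h3 : g n ≤ g i := hg.monotone (by omega)
    omega
  have h1 := Finset.card_le_card hsub
  have h2 : ((Finset.range n).image g).card ≤ n := by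
    simpa using Finset.card_image_le (s := Finset.range n) (f := g)
  unfold cnt at h
  omega

theorem rg_notMem (g : ℕ → ℕ) (hg : StrictMono g) : rg g ∉ QQ := by
  rintro ⟨N, hN⟩
  have h1 := hN (g N) (hg.id_le N)
  have : rg g (g N) = true := by simp [rg]
  rw [this] at h1
  simp at h1

theorem exists_strictMono_ge (h : ℕ → ℕ) : ∃ g : ℕ → ℕ, StrictMono g ∧ ∀ n, h n ≤ g n := by
  refine ⟨fun n => ∑ i ∈ Finset.range (n + 1), (h i + 1), ?_, ?_⟩
  · apply strictMono_nat_of_lt_succ
    intro n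
    rw [Finset.sum_range_succ _ (n + 1)]
    omega
  · intro n
    have := Finset.single_le_sum (f := fun i => h i + 1) (s := Finset.range (n + 1))
      (fun _ _ => Nat.zero_le _) (Finset.mem_range.mpr (Nat.lt_succ_self n))
    simp only at this ⊢
    omega

/-- The scale-like family: there are a cardinal `κ` (the dominating number), and a set `M` of
sequences such that: families of fewer than `κ` functions are not dominating, `κ ≤ 𝔠`, for every
open set `O` containing `QQ` fewer than `κ` points of `M` lie outside `O`, `QQ ⊆ M`, and `M` is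
uncountable. -/
theorem exists_M : ∃ (κ : Cardinal.{0}) (M : Set (ℕ → Bool)),
    (∀ F : Set (ℕ → ℕ), #F < κ → ¬ Dominating F) ∧ κ ≤ #(ℕ → ℕ) ∧
    (∀ O : Set (ℕ → Bool), IsOpen O → QQ ⊆ O → #((M \ O : Set (ℕ → Bool))) < κ) ∧ QQ ⊆ M ∧
    ¬ M.Countable := by
  classical
  -- a dominating family of minimal size
  let S : Set Cardinal.{0} := {c | ∃ F : Set (ℕ → ℕ), Dominating F ∧ #F = c}
  have hS : S.Nonempty := ⟨_, Set.univ, fun h => ⟨h, trivial, 0, fun _ _ => le_rfl⟩, rfl⟩
  obtain ⟨κ, hκS, hκmin⟩ : ∃ κ ∈ S, ∀ c ∈ S, κ ≤ c :=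
    ⟨sInf S, csInf_mem hS, fun c hc => csInf_le' hc⟩
  obtain ⟨F0, hF0, hF0κ⟩ := hκS
  have hmin : ∀ F : Set (ℕ → ℕ), #F < κ → ¬ Dominating F := by
    intro F hF hD
    exact absurd (hκmin _ ⟨F, hD, rfl⟩) (not_le.mpr hF)
  have hκinf : ℵ₀ ≤ κ := by
    by_contra h
    push Not at h
    rw [← hF0κ, Cardinal.lt_aleph0_iff_set_finite] at h
    exact not_dominating_finite F0 h hF0
  -- index
  let I : Type := κ.ord.ToType
  have hI : #I = κ := by simp [I]
  have hIio : ∀ i : I, #(Set.Iio i) < κ := by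
    intro i
    have h := Cardinal.mk_Iio_lt i (by simp [I])
    rw [hI] at h
    exact h
  have hIic : ∀ i : I, #(Set.Iic i) < κ := by
    intro i
    have : Set.Iic i = Set.Iio i ∪ {i} := by
      ext j; simp [le_iff_lt_or_eq]
    rw [this]
    refine lt_of_le_of_lt (Cardinal.mk_union_le _ _) ?_
    apply Cardinal.add_lt_of_lt hκinf (hIio i)
    rw [Cardinal.mk_singleton]
    exact lt_of_lt_of_le Cardinal.one_lt_aleph0 hκinf
  have hequiv : Nonempty (I ≃ F0) := by
    rw [← Cardinal.eq, hI, hF0κ]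
  obtain ⟨e⟩ := hequiv
  let d : I → ℕ → ℕ := fun i => (e i : ℕ → ℕ)
  have hd : ∀ h : ℕ → ℕ, ∃ i, ∃ N, ∀ n, N ≤ n → h n ≤ d i n := by
    intro h
    obtain ⟨f, hf, N, hN⟩ := hF0 h
    refine ⟨e.symm ⟨f, hf⟩, N, ?_⟩
    simpa [d] using hN
  -- choose g
  have hg : ∀ i : I, ∃ g : ℕ → ℕ, StrictMono g ∧ ∀ j < i, ¬ ∃ N, ∀ n, N ≤ n → g n ≤ d j n := by
    intro i
    have h1 : #((d '' Set.Iio i : Set (ℕ → ℕ))) < κ :=
      lt_of_le_of_lt Cardinal.mk_image_le (hIio i)
    have h2 := hmin _ h1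
    simp only [Dominating, not_forall, not_exists, not_and] at h2
    obtain ⟨h, hh⟩ := h2
    obtain ⟨g, hg1, hg2⟩ := exists_strictMono_ge h
    refine ⟨g, hg1, ?_⟩
    rintro j hj ⟨N, hN⟩
    obtain ⟨n, hn, hn2⟩ := hh (d j) ⟨j, hj, rfl⟩ N
    exact hn2 ((hg2 n).trans (hN n hn))
  choose g hg1 hg2 using hg
  refine ⟨κ, QQ ∪ Set.range (fun i => rg (g i)), hmin, ?_, ?_, Set.subset_union_left, ?_⟩
  · rw [← hF0κ]
    exact Cardinal.mk_set_le F0
  · intro O hO hQO
    have hK : IsCompact Oᶜ := hO.isClosed_compl.isCompact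
    obtain ⟨b, hb⟩ := compact_bounded Oᶜ hK (by
      rw [Set.disjoint_left]
      intro z hz hzQ
      exact hz (hQO hzQ))
    obtain ⟨j, N, hj⟩ := hd b
    have hsub : ((QQ ∪ Set.range (fun i => rg (g i))) \ O : Set (ℕ → Bool)) ⊆
        (fun i => rg (g i)) '' Set.Iic j := by
      rintro z ⟨hz | ⟨i, rfl⟩, hzO⟩
      · exact absurd (hQO hz) hzO
      · refine ⟨i, ?_, rfl⟩
        by_contra hij
        rw [Set.mem_Iic, not_le] at hij
        apply hg2 i j hij
        refine ⟨N, fun n hn => ?_⟩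
        exact (cnt_rg (g i) (hg1 i) n (b n) (hb _ hzO n)).le.trans (hj n hn)
    exact lt_of_le_of_lt (Cardinal.mk_le_mk_of_subset hsub)
      (lt_of_le_of_lt Cardinal.mk_image_le (hIic j))
  · intro hcount
    have h1 : (Set.range (fun i => rg (g i))).Countable := hcount.mono Set.subset_union_right
    have hne : Nonempty I := by
      rw [← Cardinal.mk_ne_zero_iff, hI]
      exact ne_of_gt (lt_of_lt_of_le Cardinal.aleph0_pos hκinf)
    obtain ⟨z, hz⟩ := h1.exists_eq_range (Set.range_nonempty _)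
    have hzQ : ∀ k, z k ∉ QQ := by
      intro k
      have : z k ∈ Set.range (fun i => rg (g i)) := by rw [hz]; exact ⟨k, rfl⟩
      obtain ⟨i, hi⟩ := this
      rw [← hi]
      exact rg_notMem _ (hg1 i)
    choose m hm using fun k n => cnt_unbounded (z k) (hzQ k) n
    let b : ℕ → ℕ := fun n => (Finset.range (n + 1)).sup (fun k => m k n)
    have hb : ∀ k n, k ≤ n → n < cnt (z k) (b n) := by
      intro k n hkn
      refine lt_of_lt_of_le (hm k n) (cnt_mono _ ?_)
      exact Finset.le_sup (f := fun k => m k n) (Finset.mem_range.mpr (by omega))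
    obtain ⟨j, N, hj⟩ := hd b
    have hex : ∃ i : I, j < i := by
      by_contra hcon
      push Not at hcon
      have : Set.Iic j = Set.univ := by
        ext i; simp [hcon i]
      have h2 := hIic j
      rw [this, Cardinal.mk_univ, hI] at h2
      exact lt_irrefl _ h2
    obtain ⟨i, hi⟩ := hex
    have hzi : rg (g i) ∈ Set.range z := by rw [← hz]; exact ⟨i, rfl⟩
    obtain ⟨k, hk⟩ := hzi
    apply hg2 i j hi
    refine ⟨max N k, fun n hn => ?_⟩
    have h3 := hb k n (le_trans (le_max_right _ _) hn)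
    rw [hk] at h3
    exact (cnt_rg (g i) (hg1 i) n (b n) h3).le.trans (hj n (le_trans (le_max_left _ _) hn))

/-- Menger for small sets and then for `M`. -/
theorem menger_M (κ : Cardinal.{0}) (M : Set (ℕ → Bool))
    (h1 : ∀ F : Set (ℕ → ℕ), #F < κ → ¬ Dominating F)
    (h3 : ∀ O : Set (ℕ → Bool), IsOpen O → QQ ⊆ O → #((M \ O : Set (ℕ → Bool))) < κ)
    (h4 : QQ ⊆ M) : Menger M := by
  classical
  intro U hU
  have hmem : ∀ n, ∀ x : M, ∃ W ∈ U n, x ∈ W := by
    intro n x
    have : x ∈ ⋃₀ U n := by rw [(hU n).2]; trivial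
    exact this
  choose w hw1 hw2 using hmem
  obtain ⟨q, hq⟩ := QQ_countable.exists_eq_range ⟨fun _ => false, 0, fun _ _ => rfl⟩
  have hqM : ∀ n, q n ∈ M := fun n => h4 (by rw [hq]; exact ⟨n, rfl⟩)
  -- the open set covered by the first part
  have hopen : ∀ n, ∃ O : Set (ℕ → Bool), IsOpen O ∧ Subtype.val ⁻¹' O = w n ⟨q n, hqM n⟩ :=
    fun n => isOpen_induced_iff.mp ((hU n).1 _ (hw1 n _))
  choose O hO1 hO2 using hopen
  have hsmall := h3 (⋃ n, O n) (isOpen_iUnion hO1) (by
    intro z hz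
    rw [hq] at hz
    obtain ⟨n, rfl⟩ := hz
    refine Set.mem_iUnion.mpr ⟨n, ?_⟩
    have : (⟨q n, hqM n⟩ : M) ∈ (Subtype.val ⁻¹' O n : Set M) := by
      rw [hO2]; exact hw2 n _
    exact this)
  -- countable subcovers
  have hcs : ∀ n, ∃ c : ℕ → Set M, (∀ k, c k ∈ U n) ∧ ∀ x, ∃ k, x ∈ c k := by
    intro n
    obtain ⟨T, hT1, hT2, hT3⟩ := isOpen_sUnion_countable (U n) (hU n).1
    have hTne : T.Nonempty := by
      by_contra h
      rw [Set.not_nonempty_iff_eq_empty] at h
      rw [h, (hU n).2] at hT3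
      have : (⟨q 0, hqM 0⟩ : M) ∈ (Set.univ : Set M) := trivial
      rw [← hT3] at this
      simp at this
    obtain ⟨c, hc⟩ := hT1.exists_eq_range hTne
    refine ⟨c, fun k => hT2 (by rw [hc]; exact ⟨k, rfl⟩), fun x => ?_⟩
    have : x ∈ ⋃₀ T := by rw [hT3, (hU n).2]; trivial
    obtain ⟨W, hW, hx⟩ := this
    rw [hc] at hW
    obtain ⟨k, rfl⟩ := hW
    exact ⟨k, hx⟩
  choose c hc1 hc2 using hcs
  choose f hf using fun x n => hc2 n x
  -- f x n : index for x in the n-th cover
  let A : Set M := {x | (x : ℕ → Bool) ∉ ⋃ n, O n}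
  have hA : #((f '' A : Set (ℕ → ℕ))) < κ := by
    refine lt_of_le_of_lt Cardinal.mk_image_le ?_
    refine lt_of_le_of_lt ?_ hsmall
    refine Cardinal.mk_le_of_injective (f := fun x : A => (⟨x.1.1, x.1.2, x.2⟩ :
      (M \ ⋃ n, O n : Set (ℕ → Bool)))) ?_
    intro x y hxy
    apply Subtype.ext
    apply Subtype.ext
    exact congrArg (fun z : (M \ ⋃ n, O n : Set (ℕ → Bool)) => z.1) hxy
  have hnd := h1 _ hA
  simp only [Dominating, not_forall, not_exists, not_and] at hnd
  obtain ⟨g, hg⟩ := hnd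
  refine ⟨fun n => {w n ⟨q n, hqM n⟩} ∪ (c n) '' (Set.Iic (g n)), ?_, ?_⟩
  · intro n
    constructor
    · rintro W (hW | ⟨k, _, rfl⟩)
      · rw [Set.mem_singleton_iff] at hW
        rw [hW]
        exact hw1 n _
      · exact hc1 n k
    · exact (Set.finite_singleton _).union ((Set.finite_Iic _).image _)
  · rw [Set.eq_univ_iff_forall]
    intro x
    by_cases hx : (x : ℕ → Bool) ∈ ⋃ n, O n
    · obtain ⟨n, hn⟩ := Set.mem_iUnion.mp hx
      refine Set.mem_iUnion.mpr ⟨n, w n ⟨q n, hqM n⟩, Or.inl rfl, ?_⟩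
      rw [← hO2]
      exact hn
    · obtain ⟨n, -, hn⟩ := hg (f x) ⟨x, hx, rfl⟩ 0
      push Not at hn
      exact Set.mem_iUnion.mpr ⟨n, c n (f x n), Or.inr ⟨f x n, hn.le, rfl⟩, hf x n⟩

/-- compact subsets of `M` are countable -/
theorem compact_countable (κ : Cardinal.{0}) (M : Set (ℕ → Bool)) (h2 : κ ≤ #(ℕ → ℕ))
    (h3 : ∀ O : Set (ℕ → Bool), IsOpen O → QQ ⊆ O → #((M \ O : Set (ℕ → Bool))) < κ)
    (K : Set (ℕ → Bool)) (hK : IsCompact K) (hKM : K ⊆ M) : K.Countable := by
  classical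
  by_contra hunc
  have hpol : PolishSpace (ℕ → Bool) := { }
  have hcard : #(ℕ → Bool) = Cardinal.continuum := by simp
  obtain ⟨f, hf1, hf2, hf3⟩ := hK.isClosed.exists_nat_bool_injection_of_not_countable hunc
  -- slices
  let pr : (ℕ → Bool) → (ℕ → Bool) → (ℕ → Bool) := fun x y n =>
    if n % 2 = 0 then x (n / 2) else y (n / 2)
  have hpr : ∀ x y x' y', pr x y = pr x' y' → x = x' ∧ y = y' := by
    intro x y x' y' h
    constructor
    · funext n
      have := congrFun h (2 * n)
      simpa [pr] using this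
    · funext n
      have := congrFun h (2 * n + 1)
      have e1 : (2 * n + 1) % 2 = 1 := by omega
      have e2 : (2 * n + 1) / 2 = n := by omega
      simpa [pr, e1, e2] using this
  have hprc : ∀ y, Continuous (fun x => pr x y) := by
    intro y
    apply continuous_pi
    intro n
    by_cases hn : n % 2 = 0
    · simp only [pr, hn, if_true]
      exact continuous_apply _
    · simp only [pr, hn, if_false]
      exact continuous_const
  have hex : ∃ y, ∀ x, f (pr x y) ∉ QQ := by
    by_contra hcon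
    push Not at hcon
    choose x hx using hcon
    have hinj : Function.Injective (fun y => f (pr (x y) y)) := by
      intro y y' h
      exact (hpr _ _ _ _ (hf3 h)).2
    have hc : (Set.range (fun y => f (pr (x y) y))).Countable :=
      QQ_countable.mono (by rintro _ ⟨y, rfl⟩; exact hx y)
    have h5 : Countable (ℕ → Bool) := by
      rw [← Set.countable_univ_iff]
      apply Set.countable_of_injective_of_countable_image (f := fun y => f (pr (x y) y))
        hinj.injOn
      rw [Set.image_univ]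
      exact hc
    have h6 : #(ℕ → Bool) ≤ ℵ₀ := Cardinal.mk_le_aleph0_iff.mpr h5
    rw [hcard] at h6
    exact absurd Cardinal.aleph0_lt_continuum (not_lt.mpr h6)
  obtain ⟨y, hy⟩ := hex
  let P : Set (ℕ → Bool) := Set.range (fun x => f (pr x y))
  have hPc : IsCompact P := isCompact_range (hf2.comp (hprc y))
  have hPK : P ⊆ K := by rintro _ ⟨x, rfl⟩; exact hf1 ⟨_, rfl⟩
  have h5 := h3 Pᶜ hPc.isClosed.isOpen_compl (by
    rintro z hz ⟨x, rfl⟩
    exact hy x hz)
  have h6 : P ⊆ M \ Pᶜ := fun z hz => ⟨hKM (hPK hz), by simpa using hz⟩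
  have h7 : #P = #(ℕ → Bool) := by
    apply Cardinal.mk_range_eq
    intro x x' h
    exact (hpr _ _ _ _ (hf3 h)).1
  have h8 : #P < κ := lt_of_le_of_lt (Cardinal.mk_le_mk_of_subset h6) h5
  rw [h7] at h8
  have h9 : #(ℕ → ℕ) = #(ℕ → Bool) := by simp
  rw [← h9] at h8
  exact absurd h2 (not_le.mpr h8)

end Pool.Agent.X69.Ponag
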