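import Mathlib
import Pool.Agent.X69.Ponag.Defs

/-! If Bob wins the Menger game on a regular second countable space, the space is sigma-compact. -/

namespace Pool.Agent.X69.Ponag

open TopologicalSpace

variable {X : Type} [TopologicalSpace X]

theorem isCover_univ : IsCover X {Set.univ} :=
  ⟨by rintro W rfl; exact isOpen_univ, by simp⟩

/-- the set left over at a position -/
def KK (s : List (Set (Set X)) → Set (Set X)) (l : List (Set (Set X))) : Set X :=
  {x | ∀ U : Set (Set X), IsCover X U → x ∈ closure (⋃₀ s (l ++ [U]))}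

theorem KK_closed (s : List (Set (Set X)) → Set (Set X)) (l : List (Set (Set X))) :
    IsClosed (KK s l) := by
  have : KK s l = ⋂ U : Set (Set X), ⋂ _ : IsCover X U, closure (⋃₀ s (l ++ [U])) := by
    ext x; simp [KK]
  rw [this]
  exact isClosed_iInter (fun U => isClosed_iInter (fun _ => isClosed_closure))

theorem KK_compact [RegularSpace X] (s : List (Set (Set X)) → Set (Set X))
    (l : List (Set (Set X)))
    (hs : ∀ U, IsCover X U → s (l ++ [U]) ⊆ U ∧ (s (l ++ [U])).Finite) : IsCompact (KK s l) := by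
  classical
  rw [isCompact_iff_finite_subcover]
  intro ι V hV hcov
  -- the auxiliary cover
  let U : Set (Set X) := {W | IsOpen W ∧ ((∃ i, closure W ⊆ V i) ∨ closure W ⊆ (KK s l)ᶜ)}
  have hU : IsCover X U := by
    refine ⟨fun W hW => hW.1, ?_⟩
    rw [Set.eq_univ_iff_forall]
    intro x
    have key : ∀ O : Set X, IsOpen O → x ∈ O → ∃ W, IsOpen W ∧ x ∈ W ∧ closure W ⊆ O := by
      intro O hO hx
      obtain ⟨T, hT1, hT2, hT3⟩ := exists_mem_nhds_isClosed_subset (hO.mem_nhds hx)
      refine ⟨interior T, isOpen_interior, mem_interior_iff_mem_nhds.mpr hT1, ?_⟩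
      exact (closure_minimal interior_subset hT2).trans hT3
    by_cases hx : x ∈ KK s l
    · obtain ⟨i, hi⟩ := Set.mem_iUnion.mp (hcov hx)
      obtain ⟨W, h1, h2, h3⟩ := key (V i) (hV i) hi
      exact ⟨W, ⟨h1, Or.inl ⟨i, h3⟩⟩, h2⟩
    · obtain ⟨W, h1, h2, h3⟩ := key (KK s l)ᶜ (KK_closed s l).isOpen_compl hx
      exact ⟨W, ⟨h1, Or.inr h3⟩, h2⟩
  obtain ⟨h1, h2⟩ := hs U hU
  -- pick an index for each member of the answer
  have h3 : ∀ W ∈ s (l ++ [U]), ∃ t : Finset ι, closure W ∩ KK s l ⊆ ⋃ i ∈ t, V i := by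
    intro W hW
    rcases (h1 hW).2 with ⟨i, hi⟩ | h
    · refine ⟨{i}, ?_⟩
      rintro x ⟨hx, -⟩
      simpa using hi hx
    · refine ⟨∅, ?_⟩
      rintro x ⟨hx, hx'⟩
      exact absurd hx' (h hx)
  choose! t ht using h3
  refine ⟨h2.toFinset.biUnion t, ?_⟩
  intro x hx
  have h4 := hx U hU
  rw [Set.sUnion_eq_biUnion, h2.closure_biUnion] at h4
  obtain ⟨W, h5⟩ := Set.mem_iUnion.mp h4
  obtain ⟨hW, hxW⟩ := Set.mem_iUnion.mp h5
  have h6 := ht W hW ⟨hxW, hx⟩
  obtain ⟨i, h7⟩ := Set.mem_iUnion.mp h6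
  obtain ⟨hi, hxi⟩ := Set.mem_iUnion.mp h7
  refine Set.mem_iUnion.mpr ⟨i, Set.mem_iUnion.mpr ⟨?_, hxi⟩⟩
  rw [Finset.mem_biUnion]
  exact ⟨W, by simpa using hW, hi⟩

theorem KK_countable [SecondCountableTopology X] (s : List (Set (Set X)) → Set (Set X))
    (l : List (Set (Set X))) :
    ∃ c : ℕ → Set (Set X), (∀ n, IsCover X (c n)) ∧
      ∀ x, x ∉ KK s l → ∃ n, x ∉ closure (⋃₀ s (l ++ [c n])) := by
  classical
  obtain ⟨T, hT1, hT2⟩ := isOpen_iUnion_countable
    (fun U : {U : Set (Set X) // IsCover X U} => (closure (⋃₀ s (l ++ [U.1])))ᶜ)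
    (fun U => isClosed_closure.isOpen_compl)
  obtain ⟨e, he⟩ : ∃ e : ℕ → {U : Set (Set X) // IsCover X U}, T ⊆ Set.range e := by
    rcases T.eq_empty_or_nonempty with h | h
    · exact ⟨fun _ => ⟨_, isCover_univ⟩, by rw [h]; exact Set.empty_subset _⟩
    · obtain ⟨e, he⟩ := hT1.exists_eq_range h
      exact ⟨e, he.le⟩
  refine ⟨fun n => (e n).1, fun n => (e n).2, ?_⟩
  intro x hx
  have h1 : x ∈ ⋃ U : {U : Set (Set X) // IsCover X U}, (closure (⋃₀ s (l ++ [U.1])))ᶜ := by
    simp only [KK, Set.mem_ofPred_eq, not_forall] at hx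
    obtain ⟨U, hU, h⟩ := hx
    exact Set.mem_iUnion.mpr ⟨⟨U, hU⟩, h⟩
  rw [← hT2] at h1
  obtain ⟨U, h2⟩ := Set.mem_iUnion.mp h1
  obtain ⟨hUT, hxU⟩ := Set.mem_iUnion.mp h2
  obtain ⟨n, hn⟩ := he hUT
  refine ⟨n, ?_⟩
  simp only [hn]
  exact hxU

theorem upTo_append {α : Type} (U : ℕ → α) (i : ℕ) :
    upTo U i = (List.range i).map U ++ [U i] := by
  simp [upTo, List.range_succ]

theorem bobWins_sigma [RegularSpace X] [SecondCountableTopology X] (h : BobWinsMenger X) :
    ∃ S : Set (Set X), S.Countable ∧ (∀ K ∈ S, IsCompact K) ∧ ⋃₀ S = Set.univ := by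
  classical
  obtain ⟨s, hs⟩ := h
  choose c hc1 hc2 using KK_countable s
  -- the positions
  let P : ℕ → Set (List (Set (Set X))) := fun i =>
    Nat.rec {[]} (fun _ S => {l' | ∃ l ∈ S, ∃ n : ℕ, l' = l ++ [c l n]}) i
  have P0 : P 0 = {[]} := rfl
  have PS : ∀ i, P (i + 1) = {l' | ∃ l ∈ P i, ∃ n : ℕ, l' = l ++ [c l n]} := fun i => rfl
  have hPc : ∀ i, (P i).Countable := by
    intro i
    induction i with
    | zero => rw [P0]; exact Set.countable_singleton _
    | succ i ih =>
      rw [PS]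
      have : {l' | ∃ l ∈ P i, ∃ n : ℕ, l' = l ++ [c l n]} =
          ⋃ l ∈ P i, Set.range (fun n : ℕ => l ++ [c l n]) := by
        ext l'
        simp only [Set.mem_ofPred_eq, Set.mem_iUnion, Set.mem_range]
        constructor
        · rintro ⟨l, h1, n, h2⟩
          exact ⟨l, h1, n, h2.symm⟩
        · rintro ⟨l, h1, n, h2⟩
          exact ⟨l, h1, n, h2.symm⟩
      rw [this]
      exact ih.biUnion (fun l _ => Set.countable_range _)
  have hPl : ∀ i, ∀ l ∈ P i, ∀ U ∈ l, IsCover X U := by
    intro i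
    induction i with
    | zero =>
      intro l hl U hU
      rw [P0, Set.mem_singleton_iff] at hl
      rw [hl] at hU
      simp at hU
    | succ i ih =>
      rw [PS]
      rintro l' ⟨l, hl, n, rfl⟩ U hU
      rw [List.mem_append, List.mem_singleton] at hU
      rcases hU with hU | rfl
      · exact ih l hl U hU
      · exact hc1 l n
  -- legality at positions
  have hleg : ∀ l : List (Set (Set X)), (∀ U ∈ l, IsCover X U) → ∀ U, IsCover X U →
      s (l ++ [U]) ⊆ U ∧ (s (l ++ [U])).Finite := by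
    intro l hl U hU
    let W : ℕ → Set (Set X) := fun k => (l ++ [U]).getD k {Set.univ}
    have hW : ∀ k, IsCover X (W k) := by
      intro k
      by_cases hk : k < (l ++ [U]).length
      · have : W k = (l ++ [U])[k] := by simp only [W]; exact List.getD_eq_getElem _ _ hk
        rw [this]
        have hmem : (l ++ [U])[k] ∈ l ++ [U] := List.getElem_mem hk
        rw [List.mem_append, List.mem_singleton] at hmem
        rcases hmem with h | h
        · exact hl _ h
        · rw [h]; exact hU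
      · have : W k = {Set.univ} := by
          simp only [W]; exact List.getD_eq_default _ _ (by omega)
        rw [this]; exact isCover_univ
    have h1 : upTo W l.length = l ++ [U] := by
      apply List.ext_getElem
      · simp [upTo]
      · intro k h1 h2
        simp only [upTo, List.getElem_map, List.getElem_range]
        simp only [W]
        exact List.getD_eq_getElem _ _ h2
    have h2 : W l.length = U := by
      simp only [W]
      rw [List.getD_eq_getElem _ _ (by simp)]
      simp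
    have h3 := (hs W).1 l.length (fun k _ => hW k)
    rw [h1, h2] at h3
    exact h3
  refine ⟨⋃ i, (fun l => KK s l) '' (P i), Set.countable_iUnion (fun i => (hPc i).image _), ?_, ?_⟩
  · intro K hK
    obtain ⟨i, l, hl, rfl⟩ := Set.mem_iUnion.mp hK
    exact KK_compact s l (hleg l (hPl i l hl))
  · rw [Set.eq_univ_iff_forall]
    intro x
    by_contra hx
    have h1 : ∀ i, ∀ l ∈ P i, x ∉ KK s l := by
      intro i l hl hxl
      exact hx ⟨KK s l, Set.mem_iUnion.mpr ⟨i, l, hl, rfl⟩, hxl⟩
    -- build the play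
    have h2 : ∀ l, ∃ n, (x ∉ KK s l → x ∉ closure (⋃₀ s (l ++ [c l n]))) := by
      intro l
      by_cases h : x ∈ KK s l
      · exact ⟨0, fun h' => absurd h h'⟩
      · obtain ⟨n, hn⟩ := hc2 l x h
        exact ⟨n, fun _ => hn⟩
    choose m hm using h2
    let F : ℕ → List (Set (Set X)) := fun i => Nat.rec [] (fun _ l => l ++ [c l (m l)]) i
    have F0 : F 0 = [] := rfl
    have FS : ∀ i, F (i + 1) = F i ++ [c (F i) (m (F i))] := fun i => rfl
    have hFP : ∀ i, F i ∈ P i := by
      intro i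
      induction i with
      | zero => rw [F0, P0]; rfl
      | succ i ih => rw [PS, FS]; exact ⟨F i, ih, m (F i), rfl⟩
    let U : ℕ → Set (Set X) := fun i => c (F i) (m (F i))
    have hFU : ∀ i, F i = (List.range i).map U := by
      intro i
      induction i with
      | zero => rfl
      | succ i ih =>
        rw [FS, List.range_succ, List.map_append, ← ih]
        rfl
    have h3 := (hs U).2 (fun n => hc1 _ _)
    have h4 : x ∈ ⋃ n, ⋃₀ s (upTo U n) := by rw [h3]; trivial
    obtain ⟨i, hi⟩ := Set.mem_iUnion.mp h4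
    rw [upTo_append, ← hFU] at hi
    exact hm (F i) (h1 i _ (hFP i)) (subset_closure hi)

end Pool.Agent.X69.Ponag
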