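import Mathlib
import Pool.Agent.X69.Ponag.Defs
import Pool.Agent.X69.Ponag.CC
import Pool.Agent.X69.Ponag.Sigma
import Pool.Agent.X69.Ponag.MSet

/-! The counterexample. -/

namespace Pool.Agent.X69.Ponag

theorem exists_counterexample : ∃ (X : Type) (_ : TopologicalSpace X),
    T2Space X ∧ Menger X ∧ BobWinsPONAG X ∧ ¬ BobWinsMenger X := by
  obtain ⟨κ, M, h1, h2, h3, h4, h5⟩ := exists_M
  refine ⟨CC M, inferInstance, inferInstance, cc_menger (menger_M κ M h1 h3 h4),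
    cc_bobWinsPONAG, ?_⟩
  intro h
  have h6 : BobWinsMenger M := cc_bobWins h
  obtain ⟨S, hS1, hS2, hS3⟩ := bobWins_sigma h6
  apply h5
  have h7 : M = ⋃ K ∈ S, (Subtype.val '' K : Set (ℕ → Bool)) := by
    ext z
    constructor
    · intro hz
      have : (⟨z, hz⟩ : M) ∈ ⋃₀ S := by rw [hS3]; trivial
      obtain ⟨K, hK, hzK⟩ := this
      exact Set.mem_iUnion.mpr ⟨K, Set.mem_iUnion.mpr ⟨hK, ⟨z, hz⟩, hzK, rfl⟩⟩
    · intro hz
      obtain ⟨K, hz⟩ := Set.mem_iUnion.mp hz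
      obtain ⟨_, ⟨x, _, rfl⟩⟩ := Set.mem_iUnion.mp hz
      exact x.2
  rw [h7]
  apply hS1.biUnion
  intro K hK
  exact compact_countable κ M h2 h3 _ ((hS2 K hK).image continuous_subtype_val)
    (by rintro _ ⟨x, _, rfl⟩; exact x.2)

end Pool.Agent.X69.Ponag
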